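import Mathlib

/-!
# The strong skew Finitesatz in several variables
-/

noncomputable section

namespace Pool.Agent.Results.MP_89f45c_al.StrongFinitesatz

variable {F : Type*} [Field F]

/-- The monomials `x_1^{k_1} ⋯ x_n^{k_n}`: exponent vectors `k : Fin n → ℕ`, multiplied by adding
the exponents (the automorphism `σ` is only a label). -/
def Mon (_σ : F ≃+* F) (n : ℕ) : Type := Multiplicative (Fin n → ℕ)

instance (σ : F ≃+* F) (n : ℕ) : CommMonoid (Mon σ n) :=
  inferInstanceAs (CommMonoid (Multiplicative (Fin n → ℕ)))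

/-- The exponent vector of a monomial. -/
def expo {σ : F ≃+* F} {n : ℕ} (g : Mon σ n) : Fin n → ℕ := Multiplicative.toAdd g

/-- The monomial with a given exponent vector. -/
def mk (σ : F ≃+* F) {n : ℕ} (k : Fin n → ℕ) : Mon σ n := Multiplicative.ofAdd k

/-- A monomial of total degree `d` acts on the coefficients as `σ ^ d`. -/
instance (σ : F ≃+* F) (n : ℕ) : MulSemiringAction (Mon σ n) F where
  smul g a := (σ ^ (∑ i, expo g i)) a
  one_smul a := by
    change (σ ^ (∑ i, expo (1 : Mon σ n) i)) a = a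
    have : ∑ i, expo (1 : Mon σ n) i = 0 := Finset.sum_eq_zero fun i _ => rfl
    rw [this, pow_zero]; rfl
  mul_smul g h a := by
    change (σ ^ (∑ i, expo (g * h) i)) a = (σ ^ (∑ i, expo g i)) ((σ ^ (∑ i, expo h i)) a)
    have : ∑ i, expo (g * h) i = ∑ i, expo g i + ∑ i, expo h i := by
      rw [← Finset.sum_add_distrib]; rfl
    rw [this, pow_add]; rfl
  smul_zero g := map_zero _
  smul_add g a b := map_add _ a b
  smul_one g := map_one _
  smul_mul g a b := map_mul _ a b

/-- The skew polynomial ring `F[x_1, …, x_n; σ]`: finite sums of terms `a x^k` with the coefficient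
`a ∈ F` on the left, and `(a x^k) (b x^l) = a σ^{|k|}(b) x^{k + l}`. -/
abbrev SkewPoly (σ : F ≃+* F) (n : ℕ) : Type _ := SkewMonoidAlgebra F (Mon σ n)

/-- The multiplication rule of `F[x_1, …, x_n; σ]`. -/
theorem single_mul_single (σ : F ≃+* F) (n : ℕ) (k l : Fin n → ℕ) (a b : F) :
    (SkewMonoidAlgebra.single (mk σ k) a * SkewMonoidAlgebra.single (mk σ l) b : SkewPoly σ n) =
      SkewMonoidAlgebra.single (mk σ (k + l)) (a * (σ ^ (∑ i, k i)) b) :=
  SkewMonoidAlgebra.single_mul_single

/-- The `σ`-affine space `F^{n,σ}`. -/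
def Pt (σ : F ≃+* F) (n : ℕ) : Type _ :=
  {a : Fin n → F // ∀ i j, i ≠ j → σ (a j) * a i = σ (a i) * a j}

/-- `N_k(a) = σ^{k-1}(a) ⋯ σ(a) a`, with `N_0(a) = 1`. -/
def norm (σ : F ≃+* F) (k : ℕ) (a : F) : F := ∏ j ∈ Finset.range k, (σ ^ j) a

/-- The value `[x_1^{k_1} ⋯ x_n^{k_n}](a) = ∏_i σ^{k_1 + ⋯ + k_{i-1}}(N_{k_i}(a_i))`. -/
def monEval (σ : F ≃+* F) {n : ℕ} (k : Fin n → ℕ) (a : Fin n → F) : F :=
  ∏ i, (σ ^ (∑ j ∈ Finset.univ.filter (· < i), k j)) (norm σ (k i) (a i))

/-- The value `f(a) = ∑_k f_k [x^k](a)`. -/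
def eval {σ : F ≃+* F} {n : ℕ} (f : SkewPoly σ n) (a : Pt σ n) : F :=
  f.sum fun g c => c * monEval σ (expo g) a.1

/-! ### Cocycle identities -/

section Cocycle

variable (σ : F ≃+* F)

theorem pow_apply_pow (m n : ℕ) (a : F) : (σ ^ m) ((σ ^ n) a) = (σ ^ (m + n)) a := by
  rw [pow_add]; rfl

theorem norm_zero (a : F) : norm σ 0 a = 1 := by simp [norm]

theorem norm_succ (k : ℕ) (a : F) : norm σ (k + 1) a = norm σ k a * (σ ^ k) a := by
  rw [norm, Finset.prod_range_succ]; rfl

theorem norm_add (k l : ℕ) (a : F) : norm σ (k + l) a = norm σ k a * (σ ^ k) (norm σ l a) := by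
  rw [norm, Finset.prod_range_add, norm, norm, map_prod]
  congr 1
  apply Finset.prod_congr rfl
  intro j _
  rw [pow_apply_pow]

theorem monEval_succ {n : ℕ} (k : Fin (n + 1) → ℕ) (a : Fin (n + 1) → F) :
    monEval σ k a = norm σ (k 0) (a 0) *
      (σ ^ (k 0)) (monEval σ (fun i => k i.succ) (fun i => a i.succ)) := by
  rw [monEval, Fin.prod_univ_succ]
  congr 1
  · have : Finset.univ.filter (fun j : Fin (n + 1) => j < 0) = ∅ := by
      ext j; simp
    rw [this]; simp
  · rw [monEval, map_prod]
    apply Finset.prod_congr rfl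
    intro i _
    rw [pow_apply_pow]
    have : ∑ j ∈ Finset.univ.filter (· < i.succ), k j =
        k 0 + ∑ j ∈ Finset.univ.filter (· < i), k j.succ := by
      rw [Finset.sum_filter, Finset.sum_filter, Fin.sum_univ_succ]
      simp
    rw [this]

theorem comm1 {a b : F} (h : σ b * a = σ a * b) (k : ℕ) :
    a * σ (norm σ k b) = (σ ^ k) a * norm σ k b := by
  induction k with
  | zero => simp [norm_zero]
  | succ k ih =>
    have h1 : σ ((σ ^ k) b) = (σ ^ k) (σ b) := by
      have e1 := pow_apply_pow σ 1 k b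
      have e2 := pow_apply_pow σ k 1 b
      rw [pow_one] at e1 e2
      rw [e1, e2, add_comm]
    have h2 : (σ ^ (k + 1)) a = (σ ^ k) (σ a) := by
      have e2 := pow_apply_pow σ k 1 a
      rw [pow_one] at e2
      exact e2.symm
    calc a * σ (norm σ (k + 1) b) = (a * σ (norm σ k b)) * σ ((σ ^ k) b) := by
          rw [norm_succ, map_mul, mul_assoc]
      _ = norm σ k b * (σ ^ k) (σ b * a) := by rw [ih, h1, map_mul]; ring
      _ = (σ ^ (k + 1)) a * norm σ (k + 1) b := by rw [h, map_mul, norm_succ, h2]; ring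

theorem comm2 {n : ℕ} (a : F) (v : Fin n → F) (h : ∀ j, σ (v j) * a = σ a * v j) (k : Fin n → ℕ) :
    a * σ (monEval σ k v) = (σ ^ (∑ i, k i)) a * monEval σ k v := by
  induction n with
  | zero => simp [monEval]
  | succ n ih =>
    have ih' := ih (fun i => v i.succ) (fun j => h j.succ) (fun i => k i.succ)
    rw [monEval_succ, map_mul, Fin.sum_univ_succ]
    set m := monEval σ (fun i => k i.succ) (fun i => v i.succ) with hm
    have h1 : σ ((σ ^ (k 0)) m) = (σ ^ (k 0)) (σ m) := by
      have e1 := pow_apply_pow σ 1 (k 0) m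
      have e2 := pow_apply_pow σ (k 0) 1 m
      rw [pow_one] at e1 e2
      rw [e1, e2, add_comm]
    calc a * (σ (norm σ (k 0) (v 0)) * σ ((σ ^ k 0) m))
        = (a * σ (norm σ (k 0) (v 0))) * (σ ^ (k 0)) (σ m) := by rw [h1]; ring
      _ = norm σ (k 0) (v 0) * (σ ^ (k 0)) (a * σ m) := by
          rw [comm1 σ (h 0), map_mul]; ring
      _ = _ := by rw [ih', map_mul, pow_apply_pow]; ring

theorem comm3 {d : ℕ} {a m : F} (h : a * σ m = (σ ^ d) a * m) (l : ℕ) :
    norm σ l a * (σ ^ l) m = (σ ^ d) (norm σ l a) * m := by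
  induction l with
  | zero => simp [norm_zero]
  | succ l ih =>
    have e1 : (σ ^ (l + 1)) m = (σ ^ l) (σ m) := by
      have e2 := pow_apply_pow σ l 1 m
      rw [pow_one] at e2
      exact e2.symm
    calc norm σ (l + 1) a * (σ ^ (l + 1)) m = norm σ l a * (σ ^ l) (a * σ m) := by
          rw [norm_succ, e1, map_mul]; ring
      _ = (norm σ l a * (σ ^ l) m) * (σ ^ l) ((σ ^ d) a) := by rw [h, map_mul]; ring
      _ = _ := by
          rw [ih, norm_succ, map_mul, pow_apply_pow, pow_apply_pow, add_comm l d]; ring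

theorem cocycle {n : ℕ} (v : Fin n → F) (hv : ∀ i j, i ≠ j → σ (v j) * v i = σ (v i) * v j)
    (k l : Fin n → ℕ) :
    monEval σ (k + l) v = (σ ^ (∑ i, k i)) (monEval σ l v) * monEval σ k v := by
  induction n with
  | zero => simp [monEval]
  | succ n ih =>
    have ih' := ih (fun i => v i.succ) (fun i j hij => hv i.succ j.succ (by simpa using hij))
      (fun i => k i.succ) (fun i => l i.succ)
    rw [monEval_succ σ (k + l), monEval_succ σ k, monEval_succ σ l, Fin.sum_univ_succ]
    have h1 : (fun i : Fin n => (k + l) i.succ) = (fun i => k i.succ) + fun i => l i.succ := rfl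
    rw [h1, ih', Pi.add_apply, norm_add]
    set m := monEval σ (fun i => k i.succ) (fun i => v i.succ) with hm
    set m' := monEval σ (fun i => l i.succ) (fun i => v i.succ) with hm'
    set d := ∑ i : Fin n, k i.succ with hd
    have h2 : v 0 * σ m = (σ ^ d) (v 0) * m :=
      comm2 σ (v 0) _ (fun j => hv 0 j.succ (Fin.succ_ne_zero j).symm) _
    have h3 := congrArg (σ ^ (k 0)) (comm3 σ h2 (l 0))
    rw [map_mul, map_mul, pow_apply_pow, pow_apply_pow] at h3
    calc norm σ (k 0) (v 0) * (σ ^ k 0) (norm σ (l 0) (v 0)) *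
          (σ ^ (k 0 + l 0)) ((σ ^ d) m' * m)
        = norm σ (k 0) (v 0) * (σ ^ (k 0 + l 0 + d)) m' *
          ((σ ^ k 0) (norm σ (l 0) (v 0)) * (σ ^ (k 0 + l 0)) m) := by
          rw [map_mul, pow_apply_pow]; ring
      _ = norm σ (k 0) (v 0) * (σ ^ (k 0 + l 0 + d)) m' *
          ((σ ^ (k 0 + d)) (norm σ (l 0) (v 0)) * (σ ^ (k 0)) m) := by rw [h3]
      _ = _ := by
          rw [map_mul, pow_apply_pow]
          have : k 0 + l 0 + d = k 0 + d + l 0 := by ring
          rw [this]; ring

end Cocycle

/-! ### The action of the skew polynomial ring on `F` attached to a point -/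

section Action

variable {σ : F ≃+* F} {n : ℕ}

/-- The monomial `x^k` acts as `c ↦ σ^{|k|}(c) [x^k](a)`. -/
def monAct (a : Pt σ n) : Mon σ n →* AddMonoid.End F where
  toFun g :=
    { toFun := fun c => (σ ^ (∑ i, expo g i)) c * monEval σ (expo g) a.1
      map_zero' := by rw [map_zero, zero_mul]
      map_add' := fun c d => by rw [map_add, add_mul] }
  map_one' := by
    ext c
    have h1 : ∑ i, expo (1 : Mon σ n) i = 0 := Finset.sum_eq_zero fun i _ => rfl
    have h2 : monEval σ (expo (1 : Mon σ n)) a.1 = 1 := by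
      rw [monEval]
      apply Finset.prod_eq_one
      intro i _
      have : expo (1 : Mon σ n) i = 0 := rfl
      rw [this, norm_zero, map_one]
    change (σ ^ (∑ i, expo (1 : Mon σ n) i)) c * monEval σ (expo (1 : Mon σ n)) a.1 = c
    rw [h1, h2, pow_zero, mul_one]; rfl
  map_mul' g h := by
    ext c
    change (σ ^ (∑ i, expo (g * h) i)) c * monEval σ (expo (g * h)) a.1 =
      (σ ^ (∑ i, expo g i)) ((σ ^ (∑ i, expo h i)) c * monEval σ (expo h) a.1) *
        monEval σ (expo g) a.1
    have h1 : ∑ i, expo (g * h) i = ∑ i, expo g i + ∑ i, expo h i := by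
      rw [← Finset.sum_add_distrib]; rfl
    have h2 : expo (g * h) = expo g + expo h := rfl
    rw [h1, h2, cocycle σ a.1 a.2, map_mul, pow_apply_pow]; ring

/-- The action of the skew polynomial ring on `F` attached to the point `a`. -/
def act (a : Pt σ n) : SkewPoly σ n →+* AddMonoid.End F :=
  SkewMonoidAlgebra.liftNCRingHom (Module.toAddMonoidEnd F F) (monAct a) (by
    intro x g
    ext c
    change (σ ^ (∑ i, expo g i)) x * ((σ ^ (∑ i, expo g i)) c * monEval σ (expo g) a.1) =
      (σ ^ (∑ i, expo g i)) (x * c) * monEval σ (expo g) a.1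
    rw [map_mul, mul_assoc])

theorem act_single (a : Pt σ n) (g : Mon σ n) (b c : F) :
    act a (SkewMonoidAlgebra.single g b) c =
      b * ((σ ^ (∑ i, expo g i)) c * monEval σ (expo g) a.1) := by
  have h : act a (SkewMonoidAlgebra.single g b) = Module.toAddMonoidEnd F F b * monAct a g :=
    SkewMonoidAlgebra.liftNC_single _ _ _ _
  rw [h]; rfl

theorem eval_zero (a : Pt σ n) : eval (0 : SkewPoly σ n) a = 0 :=
  SkewMonoidAlgebra.sum_zero_index

theorem eval_add (f g : SkewPoly σ n) (a : Pt σ n) : eval (f + g) a = eval f a + eval g a := by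
  rw [eval, SkewMonoidAlgebra.sum_add_index']
  · rfl
  · intro i; rw [zero_mul]
  · intro i b c; rw [add_mul]

theorem eval_single (g : Mon σ n) (b : F) (a : Pt σ n) :
    eval (SkewMonoidAlgebra.single g b) a = b * monEval σ (expo g) a.1 := by
  rw [eval, SkewMonoidAlgebra.sum_single_index]
  rw [zero_mul]

/-- The point `a^c` with coordinates `σ(c) a_i c⁻¹`. -/
def conj (a : Pt σ n) (c : F) (hc : c ≠ 0) : Pt σ n :=
  ⟨fun i => σ c * a.1 i * c⁻¹, fun i j hij => by
    have h := a.2 i j hij
    have hc' : σ c ≠ 0 := (map_ne_zero σ).mpr hc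
    simp only [map_mul, map_inv₀]
    have : σ (σ c) * σ (a.1 j) * (σ c)⁻¹ * (σ c * a.1 i * c⁻¹) =
        σ (σ c) * (σ (a.1 j) * a.1 i) * c⁻¹ := by
      field_simp
    rw [this, h]
    field_simp⟩

theorem norm_conj (a c : F) (hc : c ≠ 0) (k : ℕ) :
    norm σ k (σ c * a * c⁻¹) * c = (σ ^ k) c * norm σ k a := by
  induction k with
  | zero => simp [norm_zero]
  | succ k ih =>
    have e1 : (σ ^ k) (σ c) = (σ ^ (k + 1)) c := by
      have e2 := pow_apply_pow σ k 1 c
      rw [pow_one] at e2
      exact e2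
    have h1 : (σ ^ k) c ≠ 0 := (map_ne_zero _).mpr hc
    calc norm σ (k + 1) (σ c * a * c⁻¹) * c
        = (norm σ k (σ c * a * c⁻¹) * c) * (σ ^ k) (σ c * a * c⁻¹) := by
          rw [norm_succ]; ring
      _ = (σ ^ k) c * norm σ k a * ((σ ^ (k + 1)) c * (σ ^ k) a * ((σ ^ k) c)⁻¹) := by
          rw [ih, map_mul, map_mul, map_inv₀, e1]
      _ = _ := by
          rw [norm_succ]
          field_simp

theorem monEval_conj {n : ℕ} (k : Fin n → ℕ) (v : Fin n → F) (c : F) (hc : c ≠ 0) :
    monEval σ k (fun i => σ c * v i * c⁻¹) * c = (σ ^ (∑ i, k i)) c * monEval σ k v := by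
  induction n with
  | zero => simp [monEval]
  | succ n ih =>
    have ih' := ih (fun i => k i.succ) (fun i => v i.succ)
    rw [monEval_succ, monEval_succ, Fin.sum_univ_succ]
    set m := monEval σ (fun i => k i.succ) (fun i => v i.succ)
    set m' := monEval σ (fun i => k i.succ) (fun i => σ c * v i.succ * c⁻¹)
    have h1 : (σ ^ (k 0)) c ≠ 0 := (map_ne_zero _).mpr hc
    have h2 := congrArg (σ ^ (k 0)) ih'
    rw [map_mul, map_mul, pow_apply_pow] at h2
    have h3 := norm_conj (σ := σ) (v 0) c hc (k 0)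
    have h4 : norm σ (k 0) (σ c * v 0 * c⁻¹) * (σ ^ k 0) m' * c * (σ ^ k 0) c =
        (σ ^ (k 0 + ∑ i : Fin n, k i.succ)) c * (norm σ (k 0) (v 0) * (σ ^ k 0) m) *
          (σ ^ k 0) c := by
      calc norm σ (k 0) (σ c * v 0 * c⁻¹) * (σ ^ k 0) m' * c * (σ ^ k 0) c
          = (norm σ (k 0) (σ c * v 0 * c⁻¹) * c) * ((σ ^ k 0) m' * (σ ^ k 0) c) := by ring
        _ = _ := by rw [h2, h3]; ring
    exact mul_right_cancel₀ h1 h4

/-- The action on `c ≠ 0` is evaluation at the conjugated point: `f · c = f(a^c) c`. -/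
theorem act_eq (a : Pt σ n) (c : F) (hc : c ≠ 0) (f : SkewPoly σ n) :
    act a f c = eval f (conj a c hc) * c := by
  induction f using SkewMonoidAlgebra.induction_on with
  | zero => rw [map_zero, eval_zero, zero_mul]; rfl
  | single g b =>
    rw [act_single, eval_single, mul_assoc]
    congr 1
    exact (monEval_conj (σ := σ) (expo g) a.1 c hc).symm
  | add f g hf hg =>
    rw [map_add, eval_add, add_mul, ← hf, ← hg]; rfl

theorem conj_one (a : Pt σ n) : conj a 1 one_ne_zero = a := by
  apply Subtype.ext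
  funext i
  simp [conj]

theorem act_one (a : Pt σ n) (f : SkewPoly σ n) : act a f 1 = eval f a := by
  rw [act_eq a 1 one_ne_zero, conj_one, mul_one]

end Action

/-! ### Zero sets and vanishing ideals -/

section Ideals

variable {σ : F ≃+* F} {n : ℕ}

/-- `V(J)`: the set of points of `F^{n,σ}` at which every `f ∈ J` vanishes. -/
def zeroSet (J : Ideal (SkewPoly σ n)) : Set (Pt σ n) := {a | ∀ f ∈ J, eval f a = 0}

/-- `I(S)`: the left ideal of all `f` vanishing at every point of `S`. -/
def vanishing (S : Set (Pt σ n)) : Ideal (SkewPoly σ n) where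
  carrier := {f | ∀ a ∈ S, eval f a = 0}
  add_mem' := fun hf hg a ha => by rw [eval_add, hf a ha, hg a ha, add_zero]
  zero_mem' := fun a _ => eval_zero a
  smul_mem' := fun r f hf a ha => by
    have h1 : act a f 1 = 0 := by rw [act_one]; exact hf a ha
    rw [smul_eq_mul, ← act_one, map_mul]
    change act a r (act a f 1) = 0
    rw [h1, map_zero]

/-- `F` as a module over the skew polynomial ring, through the point `a`. -/
def M (_a : Pt σ n) : Type _ := F

instance (a : Pt σ n) : AddCommGroup (M a) := inferInstanceAs (AddCommGroup F)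

instance (a : Pt σ n) : Module (SkewPoly σ n) (M a) where
  smul f c := act a f c
  one_smul c := by change act a 1 c = c; rw [map_one]; rfl
  mul_smul f g c := by change act a (f * g) c = act a f (act a g c); rw [map_mul]; rfl
  smul_zero f := by change act a f 0 = 0; rw [map_zero]
  smul_add f c d := by change act a f (c + d) = act a f c + act a f d; exact map_add _ _ _
  add_smul f g c := by
    change act a (f + g) c = act a f c + act a g c; rw [map_add]; rfl
  zero_smul c := by change act a 0 c = 0; rw [map_zero]; rfl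

theorem smul_def (a : Pt σ n) (f : SkewPoly σ n) (c : M a) : f • c = act a f c := rfl

instance (a : Pt σ n) : IsSimpleModule (SkewPoly σ n) (M a) := by
  rw [isSimpleModule_iff_toSpanSingleton_surjective]
  refine ⟨inferInstanceAs (Nontrivial F), ?_⟩
  have key : ∀ c : F, c ≠ 0 → ∀ d : F, ∃ r : SkewPoly σ n, act a r c = d := by
    intro c hc d
    refine ⟨SkewMonoidAlgebra.single 1 (d * c⁻¹), ?_⟩
    rw [act_single]
    have h1 : monAct a 1 c = c := by rw [map_one]; rfl
    have h2 : (σ ^ (∑ i, expo (1 : Mon σ n) i)) c * monEval σ (expo (1 : Mon σ n)) a.1 = c := h1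
    rw [h2, mul_assoc, inv_mul_cancel₀ hc, mul_one]
  exact fun c hc d => key c hc d

theorem main [Finite F] (J : Ideal (SkewPoly σ n)) :
    vanishing (zeroSet J) = J ⊔ vanishing Set.univ := by
  have hfin : Finite (Pt σ n) := Subtype.finite
  apply le_antisymm
  · intro f hf
    -- the semisimple module `W = ∏ M a` and its element `w = (1)`
    let w : (a : Pt σ n) → M a := fun _ => (1 : F)
    let N : Submodule (SkewPoly σ n) ((a : Pt σ n) → M a) :=
      Submodule.map (LinearMap.toSpanSingleton (SkewPoly σ n) ((a : Pt σ n) → M a) w) J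
    have hss : IsSemisimpleModule (SkewPoly σ n) ((a : Pt σ n) → M a) := inferInstance
    obtain ⟨N', hN'⟩ := exists_isCompl N
    by_cases hfN : f • w ∈ N
    · obtain ⟨g, hgJ, hg⟩ := hfN
      have h1 : f - g ∈ vanishing (Set.univ : Set (Pt σ n)) := by
        intro a _
        have h2 := congrFun hg a
        change g • w a = f • w a at h2
        rw [← act_one, map_sub]
        change act a f 1 - act a g 1 = 0
        rw [sub_eq_zero]
        exact h2.symm
      have h3 : f = g + (f - g) := by abel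
      rw [h3]
      exact Submodule.add_mem_sup hgJ h1
    · exfalso
      -- project to the complement and then to a coordinate
      let P := Submodule.projectionOnto N' N hN'.symm
      have hP : P (f • w) ≠ 0 := by
        intro h
        rw [Submodule.projectionOnto_apply_eq_zero_iff] at h
        exact hfN h
      have hP' : ((P (f • w) : N') : (a : Pt σ n) → M a) ≠ 0 := by
        intro h; exact hP (Subtype.ext h)
      obtain ⟨a, ha⟩ := Function.ne_iff.mp hP'
      let ψ : ((a : Pt σ n) → M a) →ₗ[SkewPoly σ n] M a :=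
        (LinearMap.proj a).comp (N'.subtype.comp P)
      have hψ : ∀ g : SkewPoly σ n, ψ (g • w) = act a g (ψ w) := by
        intro g
        rw [map_smul]; rfl
      have hψf : ψ (f • w) ≠ 0 := ha
      have hψJ : ∀ g ∈ J, ψ (g • w) = 0 := by
        intro g hg
        have : P (g • w) = 0 := by
          rw [Submodule.projectionOnto_apply_eq_zero_iff]
          exact ⟨g, hg, rfl⟩
        change ((P (g • w) : N') : (a : Pt σ n) → M a) a = 0
        rw [this]; rfl
      set c : F := ψ w with hc
      have hc0 : c ≠ 0 := by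
        intro h
        apply hψf
        rw [hψ]
        change act a f c = 0
        rw [h, map_zero]
      have hmem : conj a c hc0 ∈ zeroSet J := by
        intro g hg
        have h1 := hψJ g hg
        rw [hψ] at h1
        change act a g c = 0 at h1
        rw [act_eq a c hc0] at h1
        exact (mul_eq_zero.mp h1).resolve_right hc0
      apply hψf
      rw [hψ]
      change act a f c = 0
      rw [act_eq a c hc0, hf _ hmem, zero_mul]
  · apply sup_le
    · intro f hf a ha
      exact ha f hf
    · intro f hf a _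
      exact hf a (Set.mem_univ a)

end Ideals

/-- For every finite field `F`, every automorphism `σ` of `F`, every `n` and every left ideal `J`
of `F[x_1, …, x_n; σ]` one has `I(V(J)) = J + I(F^{n,σ})`. -/
theorem result : ∀ (F : Type*) [Field F] [Finite F] (σ : F ≃+* F) (n : ℕ)
    (J : Ideal (SkewPoly σ n)), vanishing (zeroSet J) = J ⊔ vanishing Set.univ := by
  intro F _ _ σ n J
  exact main J

end Pool.Agent.Results.MP_89f45c_al.StrongFinitesatz
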